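import Pool.Agent.W844.RB.Defs

/-!
RB-BKR: the butterfly theorem implies the BKR inequality on the cube, which implies it for `2^k`
letters.
-/

set_option autoImplicit false

open Set

namespace Pool.Agent.W856.RB

open Pool.Agent.W844.RB

theorem sig_ext {α β : Type} (S : α → Set β) (x y : Σ a : α, S a) (h1 : x.1 = y.1)
    (h2 : x.2.1 = y.2.1) : x = y := by
  obtain ⟨a, b, hb⟩ := x
  obtain ⟨a', b', hb'⟩ := y
  simp only at h1 h2
  subst h1
  subst h2
  rfl

/-- step one: the intersection form -/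
theorem bx_le_bar (hbut : S_BUT) (ι : Type) [Fintype ι] [DecidableEq ι] (A B : Set (ι → Bool)) :
    Nat.card (bx A B) ≤ Nat.card {z : ι → Bool | z ∈ A ∧ (fun i => !(z i)) ∈ B} := by
  classical
  have hex : ∀ x : ι → Bool, ∃ J : Set ι, x ∈ bx A B →
      (∀ η : ι → Bool, (∀ i ∈ J, η i = x i) → η ∈ A) ∧
      (∀ η : ι → Bool, (∀ i, i ∉ J → η i = x i) → η ∈ B) := by
    intro x
    by_cases hx : x ∈ bx A B
    · obtain ⟨J, K, hd, hA, hB⟩ := hx
      refine ⟨J, fun _ => ⟨hA, ?_⟩⟩
      intro η hη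
      exact hB η (fun i hi => hη i (fun hJ => (Set.disjoint_left.mp hd) hJ hi))
    · exact ⟨∅, fun h => absurd h hx⟩
  choose f hf using hex
  refine le_trans (hbut ι (bx A B) f) ?_
  apply Nat.card_mono (Set.toFinite _)
  rintro z ⟨⟨x, hx, hzx⟩, ⟨y, hy, hzy⟩⟩
  refine ⟨(hf x hx).1 z hzx, (hf y hy).2 _ ?_⟩
  intro i hi
  rw [hzy i hi, Bool.not_not]

/-- gluing a word on `p` and a word off `p` -/
def glue {ι : Type} (p : ι → Prop) [DecidablePred p] (u : {i // p i} → Bool)
    (c : {i // ¬ p i} → Bool) : ι → Bool :=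
  fun i => if h : p i then u ⟨i, h⟩ else c ⟨i, h⟩

theorem card_glue {ι : Type} [Fintype ι] [DecidableEq ι] (p : ι → Prop) [DecidablePred p]
    (X : Set (ι → Bool)) :
    Nat.card X = ∑ c : ({i // ¬ p i} → Bool), Nat.card {u : {i // p i} → Bool | glue p u c ∈ X} := by
  classical
  rw [← Nat.card_sigma]
  refine Nat.card_congr ⟨fun x => ⟨fun i => x.1 i, ⟨fun i => x.1 i, ?_⟩⟩,
    fun y => ⟨glue p y.2.1 y.1, y.2.2⟩, ?_, ?_⟩
  · have : glue p (fun i => x.1 i) (fun i => x.1 i) = x.1 := by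
      funext i
      unfold glue
      split_ifs <;> rfl
    rw [Set.mem_ofPred_eq, this]
    exact x.2
  · intro x
    apply Subtype.ext
    funext i
    simp only [glue]
    split_ifs <;> rfl
  · rintro ⟨c, u, hu⟩
    have h1 : (fun i : {i // ¬ p i} => glue p u c i) = c := by
      funext i
      simp only [glue, dif_neg i.2]
    have h2 : (fun i : {i // p i} => glue p u c i) = u := by
      funext i
      simp only [glue, dif_pos i.2]
    exact sig_ext (fun c : {i // ¬ p i} → Bool => {u : {i // p i} → Bool | glue p u c ∈ X}) _ _ h1 h2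

theorem bx_le_mask (hbut : S_BUT) (ι : Type) [Fintype ι] [DecidableEq ι] (A B : Set (ι → Bool))
    (m : ι → Bool) :
    Nat.card (bx A B) ≤ Nat.card {z : ι → Bool | z ∈ A ∧ (fun i => xor (z i) (m i)) ∈ B} := by
  classical
  rw [card_glue (fun i => m i = true) (bx A B), card_glue (fun i => m i = true)]
  apply Finset.sum_le_sum
  intro c _
  set A' : Set ({i // m i = true} → Bool) := {u | glue _ u c ∈ A} with hA'
  set B' : Set ({i // m i = true} → Bool) := {u | glue _ u c ∈ B} with hB'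
  have h1 := bx_le_bar hbut _ A' B'
  refine le_trans (Nat.card_mono (Set.toFinite _) ?_) (le_trans h1 (Nat.card_mono (Set.toFinite _) ?_))
  · rintro u ⟨J, K, hd, hA, hB⟩
    refine ⟨{d | d.1 ∈ J}, {d | d.1 ∈ K}, ?_, ?_, ?_⟩
    · rw [Set.disjoint_left]
      intro d hdJ hdK
      exact (Set.disjoint_left.mp hd) hdJ hdK
    · intro η hη
      refine hA _ ?_
      intro i hi
      unfold glue
      split_ifs with h
      · exact hη ⟨i, h⟩ hi
      · rfl
    · intro η hη
      refine hB _ ?_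
      intro i hi
      unfold glue
      split_ifs with h
      · exact hη ⟨i, h⟩ hi
      · rfl
  · rintro u ⟨hu1, hu2⟩
    refine ⟨hu1, ?_⟩
    have e : (fun i => xor (glue (fun i => m i = true) u c i) (m i)) =
        glue (fun i => m i = true) (fun i => !(u i)) c := by
      funext i
      unfold glue
      by_cases h : m i = true
      · simp [h]
      · simp [h]
    rw [e]
    exact hu2

theorem bkr2 (hbut : S_BUT) : S_BKR2 := by
  intro ι _ _ A B
  classical
  have h1 : Nat.card A * Nat.card B =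
      ∑ m : ι → Bool, Nat.card {z : ι → Bool | z ∈ A ∧ (fun i => xor (z i) (m i)) ∈ B} := by
    rw [← Nat.card_prod, ← Nat.card_sigma]
    refine Nat.card_congr ⟨fun q => ⟨fun i => xor (q.1.1 i) (q.2.1 i), ⟨q.1.1, q.1.2, ?_⟩⟩,
      fun y => ⟨⟨y.2.1, y.2.2.1⟩, ⟨fun i => xor (y.2.1 i) (y.1 i), y.2.2.2⟩⟩, ?_, ?_⟩
    · have : (fun i => xor (q.1.1 i) (xor (q.1.1 i) (q.2.1 i))) = q.2.1 := by
        funext i
        cases q.1.1 i <;> cases q.2.1 i <;> rfl
      rw [this]
      exact q.2.2
    · rintro ⟨⟨x, hx⟩, ⟨y, hy⟩⟩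
      simp
    · rintro ⟨m, x, hx⟩
      have : (fun i => xor (x i) (xor (x i) (m i))) = m := by
        funext i
        cases x i <;> cases m i <;> rfl
      exact sig_ext (fun m : ι → Bool => {z : ι → Bool | z ∈ A ∧ (fun i => xor (z i) (m i)) ∈ B})
        _ _ this rfl
  rw [h1]
  calc Nat.card (bx A B) * 2 ^ Fintype.card ι
      = ∑ _m : ι → Bool, Nat.card (bx A B) := by
        rw [Finset.sum_const, Finset.card_univ, Fintype.card_fun, Fintype.card_bool, smul_eq_mul,
          mul_comm]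
    _ ≤ _ := Finset.sum_le_sum (fun m _ => bx_le_mask hbut ι A B m)

theorem bkr (h2 : S_BKR2) : S_BKR := by
  intro n k A B
  classical
  have e : Fin (2 ^ k) ≃ (Fin k → Bool) := by
    apply Fintype.equivOfCardEq
    simp
  -- the big equivalence
  let E : (Fin n → Fin (2 ^ k)) ≃ (Fin n × Fin k → Bool) :=
    ⟨fun w q => e (w q.1) q.2, fun v i => e.symm (fun j => v (i, j)),
      fun w => by funext i; simp, fun v => by funext q; simp⟩
  have hE : ∀ w q, E w q = e (w q.1) q.2 := fun _ _ => rfl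
  have hEs : ∀ v i, E.symm v i = e.symm (fun j => v (i, j)) := fun _ _ => rfl
  have hcard : ∀ C : Set (Fin n → Fin (2 ^ k)),
      Nat.card C = Nat.card {v : Fin n × Fin k → Bool | E.symm v ∈ C} := by
    intro C
    refine Nat.card_congr ⟨fun x => ⟨E x.1, ?_⟩, fun y => ⟨E.symm y.1, y.2⟩, ?_, ?_⟩
    · rw [Set.mem_ofPred_eq, Equiv.symm_apply_apply]
      exact x.2
    · intro x
      apply Subtype.ext
      exact Equiv.symm_apply_apply _ _
    · intro x
      apply Subtype.ext
      exact Equiv.apply_symm_apply _ _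
  have h := h2 (Fin n × Fin k) {v | E.symm v ∈ A} {v | E.symm v ∈ B}
  rw [← hcard A, ← hcard B] at h
  have hpow : 2 ^ Fintype.card (Fin n × Fin k) = (2 ^ k) ^ n := by
    rw [Fintype.card_prod, Fintype.card_fin, Fintype.card_fin, ← pow_mul, mul_comm]
  rw [hpow] at h
  refine le_trans (Nat.mul_le_mul_right _ ?_) h
  rw [hcard (bx A B)]
  apply Nat.card_mono (Set.toFinite _)
  rintro v ⟨J, K, hd, hA, hB⟩
  refine ⟨{q | q.1 ∈ J}, {q | q.1 ∈ K}, ?_, ?_, ?_⟩
  · rw [Set.disjoint_left]
    intro q hJ hK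
    exact (Set.disjoint_left.mp hd) hJ hK
  · intro η hη
    refine hA _ ?_
    intro i hi
    rw [hEs, hEs]
    congr 1
    funext j
    exact hη (i, j) hi
  · intro η hη
    refine hB _ ?_
    intro i hi
    rw [hEs, hEs]
    congr 1
    funext j
    exact hη (i, j) hi

end Pool.Agent.W856.RB
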